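import Mathlib

/-!
Continuous interpolation of a function given on a fine net of the unit sphere of dimension `m`,
such that every value is a convex combination of at most `m + 1` values at near points. We use
Kuhn's triangulation of the boundary of the cube: for a point `p` the vertices are the integer
points `⌊p + t⌋`, `0 ≤ t < 1`, and their weights are the lengths of the sets of these `t`.
-/

namespace Pool.Agent.H88.GH

open Set MeasureTheory

variable {m : ℕ}

/-- The times `t` with `⌊p + t⌋ = v`. -/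
def tim (p : Fin (m + 1) → ℝ) (v : Fin (m + 1) → ℤ) : Set ℝ :=
  {t | t ∈ Ico (0:ℝ) 1 ∧ ∀ i, ⌊p i + t⌋ = v i}

/-- The weight of the vertex `v` at the point `p`. -/
noncomputable def lam (p : Fin (m + 1) → ℝ) (v : Fin (m + 1) → ℤ) : ℝ :=
  max 0 (min 1 (Finset.univ.inf' Finset.univ_nonempty fun i => (v i : ℝ) + 1 - p i) -
    max 0 (Finset.univ.sup' Finset.univ_nonempty fun i => (v i : ℝ) - p i))

lemma lam_nonneg (p : Fin (m + 1) → ℝ) (v : Fin (m + 1) → ℤ) : 0 ≤ lam p v := le_max_left _ _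

lemma tim_eq (p : Fin (m + 1) → ℝ) (v : Fin (m + 1) → ℤ) :
    tim p v = Ico (max 0 (Finset.univ.sup' Finset.univ_nonempty fun i => (v i : ℝ) - p i))
      (min 1 (Finset.univ.inf' Finset.univ_nonempty fun i => (v i : ℝ) + 1 - p i)) := by
  ext t
  unfold tim
  simp only [mem_setOf_eq, mem_Ico, max_le_iff, lt_min_iff, Finset.sup'_le_iff,
    Finset.lt_inf'_iff, Finset.mem_univ, forall_true_left, Int.floor_eq_iff]
  constructor
  · rintro ⟨⟨h1, h2⟩, h3⟩
    refine ⟨⟨h1, fun i => ?_⟩, h2, fun i => ?_⟩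
    · linarith [(h3 i).1]
    · linarith [(h3 i).2]
  · rintro ⟨⟨h1, h2⟩, h3, h4⟩
    refine ⟨⟨h1, h3⟩, fun i => ⟨?_, ?_⟩⟩
    · linarith [h2 i]
    · linarith [h4 i]

lemma vol_tim (p : Fin (m + 1) → ℝ) (v : Fin (m + 1) → ℤ) :
    volume (tim p v) = ENNReal.ofReal (lam p v) := by
  rw [tim_eq, Real.volume_Ico]
  unfold lam
  rcases le_total 0 (min 1 (Finset.univ.inf' Finset.univ_nonempty fun i => (v i : ℝ) + 1 - p i) -
    max 0 (Finset.univ.sup' Finset.univ_nonempty fun i => (v i : ℝ) - p i)) with h | h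
  · rw [max_eq_right h]
  · rw [max_eq_left h, ENNReal.ofReal_zero, ENNReal.ofReal_eq_zero.2 h]

lemma exists_time {p : Fin (m + 1) → ℝ} {v : Fin (m + 1) → ℤ} (h : 0 < lam p v) :
    ∃ t, t ∈ Ico (0:ℝ) 1 ∧ ∀ i, ⌊p i + t⌋ = v i := by
  have h1 : volume (tim p v) ≠ 0 := by
    rw [vol_tim]
    exact (ENNReal.ofReal_pos.2 h).ne'
  have h2 : (tim p v).Nonempty := by
    rw [nonempty_iff_ne_empty]
    intro h0
    rw [h0, measure_empty] at h1
    exact h1 rfl
  obtain ⟨t, ht⟩ := h2
  exact ⟨t, ht⟩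

lemma continuous_lam (v : Fin (m + 1) → ℤ) :
    Continuous fun p : Fin (m + 1) → ℝ => lam p v := by
  unfold lam
  refine continuous_const.max ((continuous_const.min ?_).sub (continuous_const.max ?_))
  · exact Continuous.finset_inf'_apply _ fun i _ => by fun_prop
  · exact Continuous.finset_sup'_apply _ fun i _ => by fun_prop

/-- The integer points of the cube. -/
noncomputable def vert (m N : ℕ) : Finset (Fin (m + 1) → ℤ) :=
  Fintype.piFinset fun _ => Finset.Icc (-(N:ℤ)) N

lemma sum_lam {N : ℕ} {p : Fin (m + 1) → ℝ} (hp : ∀ i, |p i| ≤ N) :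
    ∑ v ∈ vert m N, lam p v = 1 := by
  have h1 : volume (⋃ v ∈ vert m N, tim p v) = ∑ v ∈ vert m N, volume (tim p v) := by
    apply measure_biUnion_finset
    · intro v _ w _ hvw
      rw [Function.onFun, disjoint_left]
      intro t ht ht'
      apply hvw
      funext i
      rw [← ht.2 i, ← ht'.2 i]
    · intro v _
      rw [tim_eq]
      exact measurableSet_Ico
  have h2 : (⋃ v ∈ vert m N, tim p v) = Ico (0:ℝ) 1 := by
    ext t
    simp only [mem_iUnion]
    constructor
    · rintro ⟨v, -, ht⟩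
      exact ht.1
    · intro ht
      refine ⟨fun i => ⌊p i + t⌋, ?_, ht, fun i => rfl⟩
      unfold vert
      rw [Fintype.mem_piFinset]
      intro i
      have := abs_le.1 (hp i)
      rw [Finset.mem_Icc]
      constructor
      · rw [Int.le_floor]
        push_cast
        linarith [ht.1]
      · rw [← Int.lt_add_one_iff, Int.floor_lt]
        push_cast
        linarith [ht.2]
  rw [h2, Real.volume_Ico] at h1
  simp_rw [vol_tim] at h1
  rw [← ENNReal.ofReal_sum_of_nonneg (fun v _ => lam_nonneg p v)] at h1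
  have h3 := congrArg ENNReal.toReal h1
  rw [ENNReal.toReal_ofReal (by norm_num), ENNReal.toReal_ofReal
    (Finset.sum_nonneg fun v _ => lam_nonneg p v)] at h3
  linarith

/-- At most `m + 1` vertices have positive weight at a point with an integer coordinate. -/
lemma card_lam {N : ℕ} {p : Fin (m + 1) → ℝ} {i₀ : Fin (m + 1)} {k : ℤ} (hk : p i₀ = k) :
    ((vert m N).filter fun v => 0 < lam p v).card ≤ m + 1 := by
  classical
  have hmap : ∀ v ∈ (vert m N).filter (fun v => 0 < lam p v),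
      (∑ i, (v i - ⌊p i⌋)).toNat ∈ Finset.range (m + 1) := by
    intro v hv
    rw [Finset.mem_filter] at hv
    obtain ⟨t, ht, hv'⟩ := exists_time hv.2
    have h1 : ∀ i, v i - ⌊p i⌋ ≤ 1 := by
      intro i
      rw [← hv' i]
      have : ⌊p i + t⌋ < ⌊p i⌋ + 2 := by
        rw [Int.floor_lt]
        push_cast
        linarith [ht.2, Int.lt_floor_add_one (p i)]
      omega
    have h2 : v i₀ - ⌊p i₀⌋ = 0 := by
      rw [← hv' i₀, hk, Int.floor_intCast, Int.floor_intCast_add]
      have : ⌊t⌋ = 0 := by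
        rw [Int.floor_eq_iff]
        push_cast
        constructor
        · exact ht.1
        · linarith [ht.2]
      omega
    have h3 : ∑ i, (v i - ⌊p i⌋) ≤ m := by
      rw [← Finset.add_sum_erase Finset.univ _ (Finset.mem_univ i₀), h2, zero_add]
      calc ∑ i ∈ Finset.univ.erase i₀, (v i - ⌊p i⌋)
          ≤ ∑ _i ∈ (Finset.univ : Finset (Fin (m + 1))).erase i₀, (1:ℤ) :=
            Finset.sum_le_sum fun i _ => h1 i
        _ = m := by
          rw [Finset.sum_const, Finset.card_erase_of_mem (Finset.mem_univ _), Finset.card_univ,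
            Fintype.card_fin]
          simp
    rw [Finset.mem_range]
    omega
  have hinj : Set.InjOn (fun v : Fin (m + 1) → ℤ => (∑ i, (v i - ⌊p i⌋)).toNat)
      ((vert m N).filter (fun v => 0 < lam p v)) := by
    intro v hv w hw hvw
    simp only [Finset.coe_filter, mem_setOf_eq] at hv hw hvw
    obtain ⟨t, ht, hv'⟩ := exists_time hv.2
    obtain ⟨r, hr, hw'⟩ := exists_time hw.2
    have h0 : ∀ (u : Fin (m + 1) → ℤ) (t : ℝ), 0 ≤ t → (∀ i, ⌊p i + t⌋ = u i) →
        0 ≤ ∑ i, (u i - ⌊p i⌋) := by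
      intro u t ht hu
      apply Finset.sum_nonneg
      intro i _
      rw [← hu i]
      have : ⌊p i⌋ ≤ ⌊p i + t⌋ := Int.floor_mono (by linarith)
      omega
    have hv0 := h0 v t ht.1 hv'
    have hw0 := h0 w r hr.1 hw'
    have heq : ∑ i, (v i - ⌊p i⌋) = ∑ i, (w i - ⌊p i⌋) := by omega
    rcases le_total t r with htr | htr
    · have hle : ∀ i, v i ≤ w i := fun i => by
        rw [← hv' i, ← hw' i]; exact Int.floor_mono (by linarith)
      have hz : ∀ i ∈ (Finset.univ : Finset (Fin (m + 1))), (w i - ⌊p i⌋) - (v i - ⌊p i⌋) = 0 := by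
        rw [← Finset.sum_eq_zero_iff_of_nonneg]
        · rw [Finset.sum_sub_distrib, heq, sub_self]
        · intro i _
          have := hle i
          omega
      funext i
      have := hz i (Finset.mem_univ i)
      omega
    · have hle : ∀ i, w i ≤ v i := fun i => by
        rw [← hv' i, ← hw' i]; exact Int.floor_mono (by linarith)
      have hz : ∀ i ∈ (Finset.univ : Finset (Fin (m + 1))), (v i - ⌊p i⌋) - (w i - ⌊p i⌋) = 0 := by
        rw [← Finset.sum_eq_zero_iff_of_nonneg]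
        · rw [Finset.sum_sub_distrib, heq, sub_self]
        · intro i _
          have := hle i
          omega
      funext i
      have := hz i (Finset.mem_univ i)
      omega
  have := Finset.card_le_card_of_injOn _ hmap hinj
  rwa [Finset.card_range] at this

/-- Distance of normalised vectors. -/
lemma norm_normalize_sub_le {E : Type*} [NormedAddCommGroup E] [NormedSpace ℝ E] {W P : E}
    (hW : W ≠ 0) (hP : P ≠ 0) :
    ‖‖W‖⁻¹ • W - ‖P‖⁻¹ • P‖ ≤ 2 * ‖W - P‖ / ‖P‖ := by
  have hW' : 0 < ‖W‖ := norm_pos_iff.2 hW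
  have hP' : 0 < ‖P‖ := norm_pos_iff.2 hP
  have h1 : ‖W‖⁻¹ • W - ‖P‖⁻¹ • P = (‖W‖⁻¹ - ‖P‖⁻¹) • W + ‖P‖⁻¹ • (W - P) := by
    rw [sub_smul, smul_sub]; abel
  rw [h1]
  refine (norm_add_le _ _).trans ?_
  rw [norm_smul, norm_smul, norm_inv, norm_norm, Real.norm_eq_abs]
  have h2 : |‖W‖⁻¹ - ‖P‖⁻¹| * ‖W‖ = |‖P‖ - ‖W‖| / ‖P‖ := by
    rw [inv_sub_inv hW'.ne' hP'.ne', abs_div, abs_of_pos (mul_pos hW' hP')]
    field_simp
  have h3 : |‖P‖ - ‖W‖| ≤ ‖W - P‖ := by
    rw [abs_sub_comm]; exact abs_norm_sub_norm_le _ _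
  rw [h2]
  have h4 : |‖P‖ - ‖W‖| / ‖P‖ ≤ ‖W - P‖ / ‖P‖ := div_le_div_of_nonneg_right h3 hP'.le
  have h5 : ‖P‖⁻¹ * ‖W - P‖ = ‖W - P‖ / ‖P‖ := by rw [div_eq_inv_mul]
  rw [h5]
  have h6 : 2 * ‖W - P‖ / ‖P‖ = ‖W - P‖ / ‖P‖ + ‖W - P‖ / ‖P‖ := by ring
  linarith

/-- The point of the surface of the cube of side `2 * N` on the ray through `y`. -/
noncomputable def cub (N : ℕ) (y : EuclideanSpace ℝ (Fin (m + 1))) : Fin (m + 1) → ℝ :=
  ((N:ℝ) / ‖(y.ofLp : Fin (m + 1) → ℝ)‖) • y.ofLp

/-- The direction of an integer vector. -/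
noncomputable def dirn (v : Fin (m + 1) → ℤ) : EuclideanSpace ℝ (Fin (m + 1)) :=
  ‖(WithLp.toLp 2 fun i => (v i : ℝ) : EuclideanSpace ℝ (Fin (m + 1)))‖⁻¹ •
    (WithLp.toLp 2 fun i => (v i : ℝ))

/-- The interpolation. -/
theorem exists_interpolation {F : Type*} [NormedAddCommGroup F] [NormedSpace ℝ F]
    (g : EuclideanSpace ℝ (Fin (m + 1)) → F) {δ : ℝ} (hδ : 0 < δ) :
    ∃ G : EuclideanSpace ℝ (Fin (m + 1)) → F, ContinuousOn G (Metric.sphere 0 1) ∧
      ∀ y, ‖y‖ = 1 → ∃ (s : Finset (Fin (m + 1) → ℤ)) (w : (Fin (m + 1) → ℤ) → ℝ),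
        s.card ≤ m + 1 ∧ (∀ v ∈ s, 0 ≤ w v) ∧ ∑ v ∈ s, w v = 1 ∧
        (∀ v ∈ s, ‖dirn v‖ = 1 ∧ ‖dirn v - y‖ < δ) ∧ G y = ∑ v ∈ s, w v • g (dirn v) := by
  obtain ⟨N, hN⟩ := exists_nat_gt (2 * (m + 1) / δ)
  have hN0 : (0:ℝ) < N := lt_trans (by positivity) hN
  have hN1 : 2 * ((m:ℝ) + 1) / N < δ := by
    rw [div_lt_iff₀ hδ] at hN
    rw [div_lt_iff₀ hN0]
    linarith
  have hne : ∀ y : EuclideanSpace ℝ (Fin (m + 1)), ‖y‖ = 1 → y.ofLp ≠ 0 := by
    intro y hy h0
    have : y = 0 := by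
      rw [← WithLp.toLp_ofLp 2 y, h0]; rfl
    rw [this, norm_zero] at hy
    exact zero_ne_one hy
  refine ⟨fun y => ∑ v ∈ vert m N, lam (cub N y) v • g (dirn v), ?_, ?_⟩
  · apply continuousOn_finset_sum
    intro v _
    apply ContinuousOn.smul _ continuousOn_const
    apply (continuous_lam v).comp_continuousOn
    unfold cub
    refine ContinuousOn.fun_smul ?_ ?_
    · apply ContinuousOn.div continuousOn_const
      · exact (PiLp.continuous_ofLp 2 _).norm.continuousOn
      · intro y hy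
        exact norm_ne_zero_iff.2 (hne y (by simpa using hy))
    · exact (PiLp.continuous_ofLp 2 _).continuousOn
  · intro y hy
    have hy0 := norm_pos_iff.2 (hne y hy)
    set p := cub N y with hp
    have hpn : ‖p‖ = N := by
      rw [hp]
      unfold cub
      rw [norm_smul, norm_div, norm_norm, div_mul_cancel₀ _ hy0.ne']
      simp
    have hpi : ∀ i, |p i| ≤ N := by
      intro i
      rw [← hpn, ← Real.norm_eq_abs]
      exact norm_le_pi_norm p i
    obtain ⟨i₀, hi₀⟩ : ∃ i, |p i| = N := by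
      by_contra hc
      push Not at hc
      have : ‖p‖ < N := by
        rw [pi_norm_lt_iff hN0]
        intro i
        rw [Real.norm_eq_abs]
        exact lt_of_le_of_ne (hpi i) (hc i)
      linarith
    obtain ⟨k, hk, hk0⟩ : ∃ k : ℤ, p i₀ = k ∧ k ≠ 0 := by
      have hN' : (N:ℤ) ≠ 0 := by
        intro h0
        have : (N:ℝ) = 0 := by exact_mod_cast h0
        linarith
      rcases abs_eq hN0.le |>.1 hi₀ with h | h
      · exact ⟨N, by rw [h]; simp, hN'⟩
      · exact ⟨-N, by rw [h]; simp, by omega⟩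
    refine ⟨(vert m N).filter fun v => 0 < lam p v, fun v => lam p v, card_lam hk,
      fun v _ => lam_nonneg p v, ?_, ?_, ?_⟩
    · rw [← sum_lam hpi]
      apply Finset.sum_filter_of_ne
      intro v _ h
      exact lt_of_le_of_ne (lam_nonneg p v) h.symm
    · intro v hv
      rw [Finset.mem_filter] at hv
      obtain ⟨t, ht, hv'⟩ := exists_time hv.2
      set W : EuclideanSpace ℝ (Fin (m + 1)) := WithLp.toLp 2 fun i => (v i : ℝ) with hW
      have hWi : ∀ i, W i = v i := fun i => rfl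
      have hW0 : W ≠ 0 := by
        intro h0
        have h1 : W i₀ = 0 := by rw [h0]; rfl
        rw [hWi, ← hv' i₀, hk, Int.floor_intCast_add] at h1
        have : ⌊t⌋ = 0 := by
          rw [Int.floor_eq_iff]
          push_cast
          constructor
          · exact ht.1
          · linarith [ht.2]
        rw [this, add_zero] at h1
        have h2 : (k:ℝ) = 0 := h1
        exact hk0 (by exact_mod_cast h2)
      have hd1 : ‖dirn v‖ = 1 := by
        unfold dirn
        rw [norm_smul, norm_inv, norm_norm]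
        exact inv_mul_cancel₀ (norm_ne_zero_iff.2 hW0)
      refine ⟨hd1, ?_⟩
      -- the point on the cube in the Euclidean space
      set κ : ℝ := (N:ℝ) / ‖(y.ofLp : Fin (m + 1) → ℝ)‖ with hκ
      have hκ0 : 0 < κ := div_pos hN0 hy0
      have hκN : (N:ℝ) ≤ κ := by
        rw [hκ, le_div_iff₀ hy0]
        have : ‖(y.ofLp : Fin (m + 1) → ℝ)‖ ≤ 1 := by
          rw [pi_norm_le_iff_of_nonneg zero_le_one]
          intro i
          rw [← hy]
          exact PiLp.norm_apply_le y i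
        nlinarith
      have hPn : ‖κ • y‖ = κ := by
        rw [norm_smul, hy, mul_one, Real.norm_eq_abs, abs_of_pos hκ0]
      have hP0 : κ • y ≠ 0 := by
        rw [← norm_ne_zero_iff, hPn]; exact hκ0.ne'
      have hy' : y = ‖κ • y‖⁻¹ • (κ • y) := by
        rw [hPn, smul_smul, inv_mul_cancel₀ hκ0.ne', one_smul]
      have hWP : ‖W - κ • y‖ ≤ m + 1 := by
        rw [EuclideanSpace.norm_eq]
        apply Real.sqrt_le_iff.2
        refine ⟨by positivity, ?_⟩
        have h1 : ∀ i ∈ (Finset.univ : Finset (Fin (m + 1))), ‖(W - κ • y) i‖ ^ 2 ≤ 1 := by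
          intro i _
          have h2 : (W - κ • y) i = v i - p i := by
            rw [hp]; rfl
          rw [h2, Real.norm_eq_abs]
          apply pow_le_one₀ (abs_nonneg _)
          rw [← hv' i, abs_le]
          constructor
          · linarith [Int.lt_floor_add_one (p i + t), ht.1]
          · linarith [Int.floor_le (p i + t), ht.2]
        calc ∑ i, ‖(W - κ • y) i‖ ^ 2 ≤ ∑ _i : Fin (m + 1), (1:ℝ) := Finset.sum_le_sum h1
          _ = (m + 1 : ℝ) := by simp
          _ ≤ ((m:ℝ) + 1) ^ 2 := by nlinarith [(Nat.cast_nonneg m : (0:ℝ) ≤ m)]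
      have h3 := norm_normalize_sub_le hW0 hP0
      rw [← hy', hPn] at h3
      have h4 : 2 * ‖W - κ • y‖ / κ ≤ 2 * ((m:ℝ) + 1) / N := by
        have hm : (0:ℝ) ≤ 2 * ((m:ℝ) + 1) := by positivity
        calc 2 * ‖W - κ • y‖ / κ ≤ 2 * ((m:ℝ) + 1) / κ :=
              div_le_div_of_nonneg_right (by linarith) hκ0.le
          _ ≤ 2 * ((m:ℝ) + 1) / N := div_le_div_of_nonneg_left hm hN0 hκN
      calc ‖dirn v - y‖ ≤ 2 * ‖W - κ • y‖ / κ := h3
        _ ≤ 2 * ((m:ℝ) + 1) / N := h4
        _ < δ := hN1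
    · symm
      apply Finset.sum_filter_of_ne
      intro v _ h
      apply lt_of_le_of_ne (lam_nonneg p v)
      intro h0
      apply h
      simp only
      rw [← h0, zero_smul]

end Pool.Agent.H88.GH
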