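import Mathlib

/-!
The distance between a point of a simplex and the nearest vertex, and the cone version on the
sphere.
-/

namespace Pool.Agent.H88.GH

open Finset

variable {E : Type*} [NormedAddCommGroup E] [InnerProductSpace ℝ E]

section

variable {ι : Type*} (s : Finset ι) (w : ι → ℝ) (p : ι → E)

/-- The parallel axis theorem. -/
lemma steiner (hw1 : ∑ i ∈ s, w i = 1) (q : E) :
    ∑ i ∈ s, w i * ‖p i - q‖ ^ 2 =
      ‖∑ i ∈ s, w i • p i - q‖ ^ 2 + ∑ i ∈ s, w i * ‖p i - ∑ j ∈ s, w j • p j‖ ^ 2 := by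
  set c := ∑ j ∈ s, w j • p j with hc
  have h1 : ∀ i, ‖p i - q‖ ^ 2 = ‖p i - c‖ ^ 2 + 2 * inner ℝ (p i - c) (c - q) + ‖c - q‖ ^ 2 := by
    intro i
    rw [← norm_add_sq_real]
    congr 2
    abel
  have h2 : ∑ i ∈ s, w i * inner ℝ (p i - c) (c - q) = 0 := by
    have : ∑ i ∈ s, w i * inner ℝ (p i - c) (c - q) = inner ℝ (∑ i ∈ s, w i • (p i - c)) (c - q) := by
      rw [sum_inner]
      exact sum_congr rfl fun i _ => by rw [inner_smul_left]; simp
    rw [this]
    have : ∑ i ∈ s, w i • (p i - c) = 0 := by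
      simp_rw [smul_sub]
      rw [sum_sub_distrib, ← sum_smul, hw1, one_smul, ← hc, sub_self]
    rw [this, inner_zero_left]
  calc ∑ i ∈ s, w i * ‖p i - q‖ ^ 2
      = ∑ i ∈ s, (w i * ‖p i - c‖ ^ 2 + 2 * (w i * inner ℝ (p i - c) (c - q)) +
          w i * ‖c - q‖ ^ 2) := sum_congr rfl fun i _ => by rw [h1]; ring
    _ = _ := by
      rw [sum_add_distrib, sum_add_distrib, ← mul_sum, h2, ← sum_mul, hw1]
      ring

/-- If the pairwise distances of at most `k` points are at most `D`, then the mean square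
distance from their barycentre is at most `D ^ 2 * (k - 1) / (2 * k)`. -/
lemma jung {k : ℕ} {D : ℝ} (hs : s.card ≤ k) (hw : ∀ i ∈ s, 0 ≤ w i) (hw1 : ∑ i ∈ s, w i = 1)
    (hD : ∀ i ∈ s, ∀ j ∈ s, ‖p i - p j‖ ≤ D) :
    ∑ i ∈ s, w i * ‖p i - ∑ j ∈ s, w j • p j‖ ^ 2 ≤ D ^ 2 * (1 - 1 / k) / 2 := by
  have hne : s.Nonempty := by
    rw [nonempty_iff_ne_empty]
    rintro rfl
    simp at hw1
  have hk : (0:ℝ) < k := by
    have : 0 < s.card := hne.card_pos
    exact_mod_cast this.trans_le hs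
  set c := ∑ j ∈ s, w j • p j with hc
  set V := ∑ i ∈ s, w i * ‖p i - c‖ ^ 2 with hV
  have h1 : ∑ i ∈ s, w i * ∑ j ∈ s, w j * ‖p j - p i‖ ^ 2 = 2 * V := by
    have : ∀ i ∈ s, w i * ∑ j ∈ s, w j * ‖p j - p i‖ ^ 2 = w i * ‖p i - c‖ ^ 2 + w i * V := by
      intro i _
      rw [steiner s w p hw1 (p i), ← hc, norm_sub_rev c (p i)]
      ring
    rw [sum_congr rfl this, sum_add_distrib, ← sum_mul, hw1, ← hV]
    ring
  have h2 : ∀ i ∈ s, w i * ∑ j ∈ s, w j * ‖p j - p i‖ ^ 2 ≤ w i * (D ^ 2 * (1 - w i)) := by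
    intro i hi
    apply mul_le_mul_of_nonneg_left _ (hw i hi)
    classical
    rw [← add_sum_erase s _ hi]
    have e1 : ∑ j ∈ s.erase i, w j = 1 - w i := by
      rw [← hw1, ← add_sum_erase s w hi]; ring
    have e2 : ∑ j ∈ s.erase i, w j * ‖p j - p i‖ ^ 2 ≤ ∑ j ∈ s.erase i, w j * D ^ 2 := by
      apply sum_le_sum
      intro j hj
      have hj' := mem_of_mem_erase hj
      exact mul_le_mul_of_nonneg_left (pow_le_pow_left₀ (norm_nonneg _) (hD j hj' i hi) 2)
        (hw j hj')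
    rw [← sum_mul, e1] at e2
    simp only [sub_self, norm_zero]
    linarith
  have h3 : ∑ i ∈ s, w i * (D ^ 2 * (1 - w i)) = D ^ 2 * (1 - ∑ i ∈ s, w i ^ 2) := by
    have : ∀ i ∈ s, w i * (D ^ 2 * (1 - w i)) = D ^ 2 * w i - D ^ 2 * w i ^ 2 := fun i _ => by ring
    rw [sum_congr rfl this, sum_sub_distrib, ← mul_sum, ← mul_sum, hw1]
    ring
  have h4 : 1 / (k:ℝ) ≤ ∑ i ∈ s, w i ^ 2 := by
    have hcs := sq_sum_le_card_mul_sum_sq (s := s) (f := w)
    rw [hw1] at hcs
    have h5 : (s.card : ℝ) * ∑ i ∈ s, w i ^ 2 ≤ k * ∑ i ∈ s, w i ^ 2 := by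
      apply mul_le_mul_of_nonneg_right _ (sum_nonneg fun i _ => sq_nonneg _)
      exact_mod_cast hs
    rw [div_le_iff₀ hk]
    linarith
  have h5 := sum_le_sum h2
  rw [h1, h3] at h5
  have h6 : D ^ 2 * (1 - ∑ i ∈ s, w i ^ 2) ≤ D ^ 2 * (1 - 1 / k) :=
    mul_le_mul_of_nonneg_left (by linarith) (sq_nonneg _)
  linarith

/-- Some point is at most as far as the mean. -/
lemma exists_le_mean {f : ι → ℝ} {M : ℝ} (hw : ∀ i ∈ s, 0 ≤ w i) (hw1 : ∑ i ∈ s, w i = 1)
    (h : ∑ i ∈ s, w i * f i ≤ M) : ∃ i ∈ s, f i ≤ M := by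
  by_contra hc
  push Not at hc
  have h1 : ∀ i ∈ s, w i * M ≤ w i * f i := fun i hi =>
    mul_le_mul_of_nonneg_left (hc i hi).le (hw i hi)
  have h2 : ∑ i ∈ s, w i * M = M := by rw [← sum_mul, hw1, one_mul]
  have h3 : ∃ i ∈ s, w i * M < w i * f i := by
    by_contra h4
    push Not at h4
    have : ∀ i ∈ s, w i = 0 := by
      intro i hi
      rcases (hw i hi).eq_or_lt with h0 | h0
      · exact h0.symm
      · exfalso
        have := mul_lt_mul_of_pos_left (hc i hi) h0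
        linarith [h4 i hi]
    rw [sum_eq_zero this] at hw1
    exact zero_ne_one hw1
  have h4 := sum_lt_sum h1 h3
  linarith

end

/-- Some point of a simplex with `k` vertices and diameter `D` is near every point. -/
lemma jung_near {ι : Type*} (s : Finset ι) (w : ι → ℝ) (p : ι → E) {k : ℕ} {D : ℝ}
    (hs : s.card ≤ k) (hw : ∀ i ∈ s, 0 ≤ w i) (hw1 : ∑ i ∈ s, w i = 1)
    (hD : ∀ i ∈ s, ∀ j ∈ s, ‖p i - p j‖ ≤ D) :
    ∃ i ∈ s, ‖p i - ∑ j ∈ s, w j • p j‖ ^ 2 ≤ D ^ 2 * (1 - 1 / k) / 2 :=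
  exists_le_mean s w hw hw1 (jung s w p hs hw hw1 hD)

open Module in
/-- Caratheodory's theorem in a cone, and the cone version of the previous estimate: a unit
vector `z` in the cone of a set `A` of unit vectors, of diameter at most `D`, in dimension `n`. -/
lemma cone_near [FiniteDimensional ℝ E] {A : Set E} {z : E} (hz : ‖z‖ = 1) {n : ℕ}
    (hn : finrank ℝ E = n) (hA : ∀ a ∈ A, ‖a‖ = 1) {D : ℝ} (hD2 : D ^ 2 < 2)
    (hD : ∀ a ∈ A, ∀ b ∈ A, ‖a - b‖ ≤ D) {κ : ℝ} (hκ : 0 < κ)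
    (hzA : κ • z ∈ convexHull ℝ A) :
    ∃ a ∈ A, 0 ≤ inner ℝ z a ∧ 1 - D ^ 2 * (1 - 1 / n) / 2 ≤ (inner ℝ z a : ℝ) ^ 2 := by
  classical
  -- all inner products are positive
  have hin : ∀ a ∈ A, ∀ b ∈ A, (0:ℝ) < inner ℝ a b := by
    intro a ha b hb
    have h1 := pow_le_pow_left₀ (norm_nonneg _) (hD a ha b hb) 2
    rw [norm_sub_sq_real, hA a ha, hA b hb] at h1
    linarith
  have hzin : ∀ b ∈ A, (0:ℝ) < inner ℝ z b := by
    intro b hb
    have hconv : Convex ℝ {x : E | 0 < (inner ℝ x b : ℝ)} := by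
      intro x hx y hy s t hs ht hst
      simp only [Set.mem_setOf_eq] at hx hy ⊢
      rw [inner_add_left, inner_smul_left, inner_smul_left]
      simp only [conj_trivial]
      rcases hs.eq_or_lt with h0 | h0
      · rw [← h0, zero_mul, zero_add, show t = 1 by linarith, one_mul]; exact hy
      · have := mul_pos h0 hx
        have := mul_nonneg ht hy.le
        linarith
    have hsub : convexHull ℝ A ⊆ {x : E | 0 < (inner ℝ x b : ℝ)} :=
      convexHull_min (fun a ha => hin a ha b hb) hconv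
    have := hsub hzA
    simp only [Set.mem_setOf_eq, inner_smul_left, conj_trivial] at this
    exact (mul_pos_iff_of_pos_left hκ).1 this
  -- projection
  let K : Submodule ℝ E := (ℝ ∙ z)ᗮ
  let π : E →ₗ[ℝ] E := LinearMap.id - (innerₛₗ ℝ z).smulRight z
  have hπ : ∀ x, π x = x - (inner ℝ z x : ℝ) • z := by
    intro x; simp [π]
  have hπK : ∀ x, π x ∈ K := by
    intro x
    rw [Submodule.mem_orthogonal_singleton_iff_inner_right, hπ, inner_sub_right, inner_smul_right,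
      real_inner_self_eq_norm_sq, hz]
    ring
  have h0 : (0:E) ∈ convexHull ℝ (π '' A) := by
    rw [← LinearMap.image_convexHull]
    refine ⟨κ • z, hzA, ?_⟩
    rw [map_smul, hπ, real_inner_self_eq_norm_sq, hz]
    simp
  obtain ⟨ι, hι, q, w, hq, hai, hw0, hw1, hq0⟩ := eq_pos_convex_span_of_mem_convexHull h0
  have hq' : ∀ i, ∃ a ∈ A, π a = q i := by
    intro i
    exact hq (Set.mem_range_self i)
  choose a ha haq using hq'
  have hcard : Fintype.card ι ≤ n := by
    have h1 := hai.card_le_finrank_succ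
    have h2 : vectorSpan ℝ (Set.range q) ≤ K := by
      rw [vectorSpan_def, Submodule.span_le]
      rintro _ ⟨x, ⟨i, rfl⟩, y, ⟨j, rfl⟩, rfl⟩
      simp only [vsub_eq_sub, SetLike.mem_coe]
      rw [← haq, ← haq]
      exact K.sub_mem (hπK _) (hπK _)
    have h3 := Submodule.finrank_mono h2
    have h4 : finrank ℝ K + 1 = n := by
      have hz0 : z ≠ 0 := by
        intro h
        rw [h, norm_zero] at hz
        exact zero_ne_one hz
      have h5 := Submodule.finrank_add_finrank_orthogonal (ℝ ∙ z)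
      rw [finrank_span_singleton hz0, hn] at h5
      change finrank ℝ (ℝ ∙ z)ᗮ + 1 = n
      omega
    have h6 : finrank ℝ (vectorSpan ℝ (Set.range q)) ≤ finrank ℝ K := h3
    generalize finrank ℝ K = e1 at *
    generalize finrank ℝ (vectorSpan ℝ (Set.range q)) = e2 at *
    omega
  set c := ∑ i, w i • a i with hc
  have hcz : ∃ l : ℝ, c = l • z := by
    refine ⟨inner ℝ z c, ?_⟩
    have h1 : π c = 0 := by
      rw [hc, map_sum]
      simp_rw [map_smul, haq]
      exact hq0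
    rw [hπ] at h1
    exact sub_eq_zero.1 h1
  obtain ⟨l, hl⟩ := hcz
  have hl1 : l = ∑ i, w i * inner ℝ z (a i) := by
    have : (inner ℝ z c : ℝ) = l := by
      rw [hl, inner_smul_right, real_inner_self_eq_norm_sq, hz]; ring
    rw [← this, hc, inner_sum]
    exact sum_congr rfl fun i _ => by rw [inner_smul_right]
  have hj := jung (univ : Finset ι) w a (k := n) (D := D) (by simpa using hcard)
    (fun i _ => (hw0 i).le) hw1 (fun i _ j _ => hD _ (ha i) _ (ha j))
  have hst := steiner (univ : Finset ι) w a hw1 0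
  rw [← hc] at hj hst
  simp only [sub_zero, hA _ (ha _), one_pow, mul_one, hw1] at hst
  have hc2 : ‖c‖ ^ 2 = l ^ 2 := by
    rw [hl, norm_smul, hz, mul_one, Real.norm_eq_abs, sq_abs]
  obtain ⟨i, -, hi⟩ := exists_le_mean (univ : Finset ι) w (f := fun i => -(inner ℝ z (a i) : ℝ))
    (M := -l) (fun i _ => (hw0 i).le) hw1 (by
      rw [hl1, ← sum_neg_distrib]
      apply le_of_eq
      apply sum_congr rfl
      intro i _
      ring)
  have hzi := hzin _ (ha i)
  have hlpos : 0 ≤ l := by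
    rw [hl1]
    exact sum_nonneg fun i _ => mul_nonneg (hw0 i).le (hzin _ (ha i)).le
  refine ⟨a i, ha i, hzi.le, ?_⟩
  have : l ^ 2 ≤ (inner ℝ z (a i) : ℝ) ^ 2 := pow_le_pow_left₀ hlpos (by linarith) 2
  linarith

end Pool.Agent.H88.GH
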