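import Pool.Agent.H75.Brouwer.Brouwer
import Pool.Agent.H88.GH.All.Jung
import Pool.Agent.H88.GH.All.Kuhn
import Pool.Agent.H88.GH.Glue

/-!
A lower bound for the Gromov-Hausdorff distance between the unit ball and the unit sphere in all
dimensions, from Brouwer's fixed point theorem.
-/

namespace Pool.Agent.H88.GH

open Metric Set

/-- The circumradius of a regular `m`-simplex with edge `1`. -/
noncomputable def cr (m : ℕ) : ℝ := √((m : ℝ) / (2 * (m + 1)))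

/-- The lower bound. -/
noncomputable def lowb (m : ℕ) : ℝ := √(1 + 2 * cr m) / (1 + cr m) ^ 2

lemma cr_nonneg (m : ℕ) : 0 ≤ cr m := Real.sqrt_nonneg _

lemma cr_sq (m : ℕ) : cr m ^ 2 = (1 - 1 / ((m + 1 : ℕ) : ℝ)) / 2 := by
  unfold cr
  rw [Real.sq_sqrt (by positivity)]
  push_cast
  field_simp
  ring

lemma cr_ge {m : ℕ} (hm : 1 ≤ m) : 1 / 2 ≤ cr m := by
  unfold cr
  apply Real.le_sqrt_of_sq_le
  have hm' : (1:ℝ) ≤ m := by exact_mod_cast hm
  rw [le_div_iff₀ (by positivity)]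
  linarith

lemma cr_lt (m : ℕ) : cr m ^ 2 < 1 / 2 := by
  rw [cr_sq]
  have : (0:ℝ) < 1 / ((m + 1 : ℕ) : ℝ) := by positivity
  linarith

lemma lowb_pos (m : ℕ) : 0 < lowb m := by
  unfold lowb
  have := cr_nonneg m
  positivity

lemma lowb_sq (m : ℕ) : lowb m ^ 2 = (1 + 2 * cr m) / (1 + cr m) ^ 4 := by
  unfold lowb
  have := cr_nonneg m
  rw [div_pow, Real.sq_sqrt (by positivity)]
  ring

variable {m : ℕ}

/-- The cluster of values near a point. -/
def clu (T : Finset (EuclideanSpace ℝ (Fin (m + 1))))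
    (f : EuclideanSpace ℝ (Fin (m + 1)) → EuclideanSpace ℝ (Fin (m + 1))) (δ : ℝ)
    (x : EuclideanSpace ℝ (Fin (m + 1))) : Set (EuclideanSpace ℝ (Fin (m + 1))) :=
  {y | ∃ a ∈ T, dist x a < δ ∧ y = f a}

/-- The unnormalised average of the values near a point. -/
noncomputable def avg (T : Finset (EuclideanSpace ℝ (Fin (m + 1))))
    (f : EuclideanSpace ℝ (Fin (m + 1)) → EuclideanSpace ℝ (Fin (m + 1))) (δ : ℝ)
    (x : EuclideanSpace ℝ (Fin (m + 1))) : EuclideanSpace ℝ (Fin (m + 1)) :=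
  ∑ a ∈ T, max 0 (δ - dist x a) • f a

lemma continuous_avg (T : Finset (EuclideanSpace ℝ (Fin (m + 1))))
    (f : EuclideanSpace ℝ (Fin (m + 1)) → EuclideanSpace ℝ (Fin (m + 1))) (δ : ℝ) :
    Continuous (avg T f δ) := by
  unfold avg
  fun_prop

lemma avg_mem {T : Finset (EuclideanSpace ℝ (Fin (m + 1)))}
    {f : EuclideanSpace ℝ (Fin (m + 1)) → EuclideanSpace ℝ (Fin (m + 1))} {δ : ℝ}
    {x : EuclideanSpace ℝ (Fin (m + 1))} (hx : ∃ a ∈ T, dist x a < δ) :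
    ∃ σ : ℝ, 0 < σ ∧ σ • avg T f δ x ∈ convexHull ℝ (clu T f δ x) := by
  classical
  set T' := T.filter fun a => dist x a < δ with hT'
  have h1 : avg T f δ x = ∑ a ∈ T', max 0 (δ - dist x a) • f a := by
    unfold avg
    symm
    apply Finset.sum_filter_of_ne
    intro a _ ha
    by_contra hc
    push Not at hc
    apply ha
    rw [max_eq_left (by linarith), zero_smul]
  have hpos : 0 < ∑ a ∈ T', max 0 (δ - dist x a) := by
    obtain ⟨a, ha, hax⟩ := hx
    have hmem : a ∈ T' := by rw [hT', Finset.mem_filter]; exact ⟨ha, hax⟩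
    have h2 : 0 < max 0 (δ - dist x a) := lt_max_of_lt_right (by linarith)
    exact lt_of_lt_of_le h2
      (Finset.single_le_sum (f := fun a => max 0 (δ - dist x a))
        (fun b _ => le_max_left 0 (δ - dist x b)) hmem)
  refine ⟨(∑ a ∈ T', max 0 (δ - dist x a))⁻¹, inv_pos.2 hpos, ?_⟩
  have h3 := Finset.centerMass_mem_convexHull (R := ℝ) T' (w := fun a => max 0 (δ - dist x a))
    (z := f) (s := clu T f δ x) (fun a _ => le_max_left _ _) hpos (by
      intro a ha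
      rw [hT', Finset.mem_filter] at ha
      exact ⟨a, ha.1, ha.2, rfl⟩)
  rw [h1]
  exact h3

lemma avg_ne {T : Finset (EuclideanSpace ℝ (Fin (m + 1)))}
    {f : EuclideanSpace ℝ (Fin (m + 1)) → EuclideanSpace ℝ (Fin (m + 1))} {δ : ℝ}
    {x : EuclideanSpace ℝ (Fin (m + 1))} (hx : ∃ a ∈ T, dist x a < δ) {D : ℝ} (hD2 : D ^ 2 < 2)
    (hf1 : ∀ a ∈ clu T f δ x, ‖a‖ = 1)
    (hf : ∀ a ∈ clu T f δ x, ∀ b ∈ clu T f δ x, ‖a - b‖ ≤ D) : avg T f δ x ≠ 0 := by
  obtain ⟨σ, hσ, hmem⟩ := avg_mem (f := f) hx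
  obtain ⟨b, hb, hbx⟩ := hx
  have hbA : f b ∈ clu T f δ x := ⟨b, hb, hbx, rfl⟩
  have hin : ∀ a ∈ clu T f δ x, (0:ℝ) < inner ℝ a (f b) := by
    intro a ha
    have h1 := pow_le_pow_left₀ (norm_nonneg _) (hf a ha _ hbA) 2
    rw [norm_sub_sq_real, hf1 a ha, hf1 _ hbA] at h1
    linarith
  have hconv : Convex ℝ {x : EuclideanSpace ℝ (Fin (m + 1)) | 0 < (inner ℝ x (f b) : ℝ)} := by
    intro x hx y hy s t hs ht hst
    simp only [Set.mem_setOf_eq] at hx hy ⊢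
    rw [inner_add_left, inner_smul_left, inner_smul_left]
    simp only [conj_trivial]
    rcases hs.eq_or_lt with h0 | h0
    · rw [← h0, zero_mul, zero_add, show t = 1 by linarith, one_mul]; exact hy
    · have := mul_pos h0 hx
      have := mul_nonneg ht hy.le
      linarith
  have := convexHull_min hin hconv hmem
  intro h0
  rw [h0, smul_zero] at this
  have h5 : (0:ℝ) < inner ℝ (0 : EuclideanSpace ℝ (Fin (m + 1))) (f b) := this
  rw [inner_zero_left] at h5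
  exact lt_irrefl _ h5

/-- The core of the lower bound. -/
theorem lower_core_all (hm : 1 ≤ m) {D δ : ℝ} (hδ : 0 < δ) (hD : D < 2 * lowb m)
    (R : EuclideanSpace ℝ (Fin (m + 1)) → EuclideanSpace ℝ (Fin (m + 1)) → Prop)
    (hR1 : ∀ x, ‖x‖ ≤ 1 → ∃ y, ‖y‖ = 1 ∧ R x y) (hR2 : ∀ y, ‖y‖ = 1 → ∃ x, ‖x‖ ≤ 1 ∧ R x y)
    (hR : ∀ x y x' y', R x y → R x' y' → |‖x - x'‖ - ‖y - y'‖| ≤ D - 2 * δ) : False := by
  classical
  -- constants
  set r := cr m with hr
  have hr0 : 1 / 2 ≤ r := cr_ge hm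
  have hr2 : r ^ 2 < 1 / 2 := cr_lt m
  have hr1 : r < 1 := by nlinarith
  have hl0 := lowb_pos m
  have hl2 := lowb_sq m
  rw [← hr] at hl2
  obtain ⟨y₀, hy₀, hRy₀⟩ := hR1 0 (by simp)
  have hD0 : 0 < D := by
    have h1 := (abs_nonneg _).trans (hR 0 y₀ 0 y₀ hRy₀ hRy₀)
    linarith
  have hDsq : D ^ 2 < 4 * ((1 + 2 * r) / (1 + r) ^ 4) := by
    rw [← hl2]
    have := pow_lt_pow_left₀ hD hD0.le two_ne_zero
    linarith [this, mul_pow 2 (lowb m) 2]
  have hD2 : D ^ 2 < 2 := by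
    refine hDsq.trans ?_
    rw [← mul_div_assoc, div_lt_iff₀ (by positivity)]
    have h1 : 9 / 4 ≤ (1 + r) ^ 2 := by nlinarith
    have h2 : (1 + r) ^ 4 = (1 + r) ^ 2 * (1 + r) ^ 2 := by ring
    rw [h2]
    nlinarith
  -- the two maps
  let f : EuclideanSpace ℝ (Fin (m + 1)) → EuclideanSpace ℝ (Fin (m + 1)) :=
    fun x => if hx : ‖x‖ ≤ 1 then Classical.choose (hR1 x hx) else 0
  let g : EuclideanSpace ℝ (Fin (m + 1)) → EuclideanSpace ℝ (Fin (m + 1)) :=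
    fun y => if hy : ‖y‖ = 1 then Classical.choose (hR2 y hy) else 0
  have hf1 : ∀ x, ‖x‖ ≤ 1 → ‖f x‖ = 1 := by
    intro x hx
    have e : f x = Classical.choose (hR1 x hx) := dif_pos hx
    rw [e]
    exact (Classical.choose_spec (hR1 x hx)).1
  have hf2 : ∀ x, ‖x‖ ≤ 1 → R x (f x) := by
    intro x hx
    have e : f x = Classical.choose (hR1 x hx) := dif_pos hx
    rw [e]
    exact (Classical.choose_spec (hR1 x hx)).2
  have hg1 : ∀ y, ‖y‖ = 1 → ‖g y‖ ≤ 1 := by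
    intro y hy
    have e : g y = Classical.choose (hR2 y hy) := dif_pos hy
    rw [e]
    exact (Classical.choose_spec (hR2 y hy)).1
  have hg2 : ∀ y, ‖y‖ = 1 → R (g y) y := by
    intro y hy
    have e : g y = Classical.choose (hR2 y hy) := dif_pos hy
    rw [e]
    exact (Classical.choose_spec (hR2 y hy)).2
  -- the net
  obtain ⟨T₀, hT₀, hfin, hcov⟩ := (isCompact_closedBall
    (0 : EuclideanSpace ℝ (Fin (m + 1))) 1).finite_cover_balls hδ
  set T := hfin.toFinset with hT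
  have hT1 : ∀ a ∈ T, ‖a‖ ≤ 1 := by
    intro a ha
    rw [hT, Set.Finite.mem_toFinset] at ha
    simpa using hT₀ ha
  have hT2 : ∀ x : EuclideanSpace ℝ (Fin (m + 1)), ‖x‖ ≤ 1 → ∃ a ∈ T, dist x a < δ := by
    intro x hx
    have h1 := hcov (mem_closedBall_zero_iff.2 hx)
    simp only [mem_iUnion, mem_ball, exists_prop] at h1
    obtain ⟨a, ha, hax⟩ := h1
    exact ⟨a, by rw [hT, Set.Finite.mem_toFinset]; exact ha, hax⟩
  have hA1 : ∀ x, ∀ a ∈ clu T f δ x, ‖a‖ = 1 := by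
    rintro x _ ⟨a, ha, -, rfl⟩
    exact hf1 a (hT1 a ha)
  have hA2 : ∀ x, ∀ a ∈ clu T f δ x, ∀ b ∈ clu T f δ x, ‖a - b‖ ≤ D := by
    rintro x _ ⟨a, ha, hax, rfl⟩ _ ⟨b, hb, hbx, rfl⟩
    have h1 := (abs_le.1 (hR _ _ _ _ (hf2 a (hT1 a ha)) (hf2 b (hT1 b hb)))).1
    have h2 : ‖a - b‖ ≤ dist x a + dist x b := by
      rw [← dist_eq_norm, dist_comm x a]
      exact dist_triangle _ _ _
    linarith
  have hne : ∀ x, ‖x‖ ≤ 1 → avg T f δ x ≠ 0 := fun x hx =>
    avg_ne (hT2 x hx) hD2 (hA1 x) (hA2 x)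
  -- the interpolation of g
  obtain ⟨G, hG1, hG2⟩ := exists_interpolation g hδ
  have hGn : ∀ y, ‖y‖ = 1 → ‖G y‖ ≤ 1 := by
    intro y hy
    obtain ⟨s, w, -, hw0, hw1, hs, hGy⟩ := hG2 y hy
    rw [hGy]
    refine (norm_sum_le _ _).trans ?_
    rw [← hw1]
    apply Finset.sum_le_sum
    intro v hv
    rw [norm_smul, Real.norm_eq_abs, abs_of_nonneg (hw0 v hv)]
    have := mul_le_mul_of_nonneg_left (hg1 _ (hs v hv).1) (hw0 v hv)
    linarith
  -- the fixed point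
  let H : EuclideanSpace ℝ (Fin (m + 1)) → EuclideanSpace ℝ (Fin (m + 1)) :=
    fun x => G (-(‖avg T f δ x‖⁻¹ • avg T f δ x))
  have hz1 : ∀ x, ‖x‖ ≤ 1 → ‖-(‖avg T f δ x‖⁻¹ • avg T f δ x)‖ = 1 := by
    intro x hx
    rw [norm_neg, norm_smul, norm_inv, norm_norm]
    exact inv_mul_cancel₀ (norm_ne_zero_iff.2 (hne x hx))
  have hHc : ContinuousOn H (closedBall 0 1) := by
    apply hG1.comp
    · apply ContinuousOn.neg
      refine ContinuousOn.fun_smul ?_ (continuous_avg T f δ).continuousOn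
      apply ContinuousOn.inv₀ (continuous_avg T f δ).norm.continuousOn
      intro x hx
      exact norm_ne_zero_iff.2 (hne x (by simpa using hx))
    · intro x hx
      exact mem_sphere_zero_iff_norm.2 (hz1 x (by simpa using hx))
  obtain ⟨c, hc, hHcc⟩ := Pool.Agent.H75.Brouwer.brouwer
    (isCompact_closedBall (0 : EuclideanSpace ℝ (Fin (m + 1))) 1) (convex_closedBall _ _)
    ⟨0, by simp⟩ H hHc (by
      intro x hx
      exact mem_closedBall_zero_iff.2 (hGn _ (hz1 x (by simpa using hx))))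
  have hc1 : ‖c‖ ≤ 1 := by simpa using hc
  set F := avg T f δ c with hF
  set z := ‖F‖⁻¹ • F with hz
  have hFn : 0 < ‖F‖ := norm_pos_iff.2 (hne c hc1)
  have hzn : ‖z‖ = 1 := by
    rw [hz, norm_smul, norm_inv, norm_norm]
    exact inv_mul_cancel₀ hFn.ne'
  have hGz : G (-z) = c := hHcc
  -- a point of the first cluster near z
  obtain ⟨σ, hσ, hσF⟩ := avg_mem (f := f) (hT2 c hc1)
  have hκ : (σ * ‖F‖) • z = σ • F := by
    rw [hz, smul_smul, mul_assoc, mul_inv_cancel₀ hFn.ne', mul_one]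
  obtain ⟨_, ⟨a, haT, hac, rfl⟩, ha0, ha1⟩ := cone_near (n := m + 1) hzn (by simp) (hA1 c) hD2
    (hA2 c) (mul_pos hσ hFn) (by rw [hκ]; exact hσF)
  -- a point of the second cluster near c
  obtain ⟨s, w, hs, hw0, hw1, hsv, hGy⟩ := hG2 (-z) (by rw [norm_neg, hzn])
  obtain ⟨v, hv, hvc⟩ := jung_near s w (fun v => g (dirn v)) (k := m + 1) (D := D) hs hw0 hw1 (by
    intro i hi j hj
    have h1 := (abs_le.1 (hR _ _ _ _ (hg2 _ (hsv i hi).1) (hg2 _ (hsv j hj).1))).2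
    have h2 : ‖dirn i - dirn j‖ ≤ ‖dirn i - -z‖ + ‖dirn j - -z‖ := by
      rw [norm_sub_rev (dirn j) (-z)]
      have := norm_add_le (dirn i - -z) (-z - dirn j)
      rwa [sub_add_sub_cancel] at this
    have h3 := (hsv i hi).2
    have h4 := (hsv j hj).2
    linarith)
  rw [← hGy, hGz] at hvc
  -- estimates
  have hvc' : ‖g (dirn v) - c‖ ≤ D * r := by
    rw [← pow_le_pow_iff_left₀ (norm_nonneg _) (by positivity) two_ne_zero, mul_pow, hr, cr_sq]
    linarith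
  have hin : (1 + 2 * r - r ^ 2) / (1 + r) ^ 2 ≤ (inner ℝ z (f a) : ℝ) := by
    rw [← pow_le_pow_iff_left₀ _ ha0 two_ne_zero]
    · refine le_trans ?_ ha1
      have e1 : D ^ 2 * (1 - 1 / ((m + 1 : ℕ) : ℝ)) / 2 = D ^ 2 * r ^ 2 := by
        rw [hr, cr_sq]; ring
      rw [e1]
      have e2 : ((1 + 2 * r - r ^ 2) / (1 + r) ^ 2) ^ 2 =
          1 - r ^ 2 * (4 * ((1 + 2 * r) / (1 + r) ^ 4)) := by
        have : (1 + r) ≠ 0 := by linarith
        field_simp
        ring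
      rw [e2]
      have := mul_le_mul_of_nonneg_left hDsq.le (sq_nonneg r)
      linarith
    · apply div_nonneg _ (sq_nonneg _)
      nlinarith
  have hsum : ((1 + r) * (2 * lowb m)) ^ 2 ≤ ‖f a + z‖ ^ 2 := by
    rw [norm_add_sq_real, hf1 a (hT1 a haT), hzn, real_inner_comm z (f a)]
    have e1 : ((1 + r) * (2 * lowb m)) ^ 2 = 2 + 2 * ((1 + 2 * r - r ^ 2) / (1 + r) ^ 2) := by
      rw [mul_pow, mul_pow, hl2]
      have : (1 + r) ≠ 0 := by linarith
      field_simp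
      ring
    rw [e1]
    linarith
  have hsum' : (1 + r) * (2 * lowb m) ≤ ‖f a + z‖ :=
    (pow_le_pow_iff_left₀ (by positivity) (norm_nonneg _) two_ne_zero).1 hsum
  have h1 : ‖f a + z‖ ≤ ‖f a - dirn v‖ + ‖dirn v - -z‖ := by
    have := norm_add_le (f a - dirn v) (dirn v - -z)
    rwa [sub_add_sub_cancel, sub_neg_eq_add] at this
  have h2 := (abs_le.1 (hR _ _ _ _ (hf2 a (hT1 a haT)) (hg2 _ (hsv v hv).1))).1
  have h3 : ‖a - g (dirn v)‖ ≤ ‖c - a‖ + ‖g (dirn v) - c‖ := by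
    rw [norm_sub_rev c a, norm_sub_rev (g (dirn v)) c]
    have := norm_add_le (a - c) (c - g (dirn v))
    rwa [sub_add_sub_cancel] at this
  have h4 : ‖c - a‖ < δ := by rw [← dist_eq_norm]; exact hac
  have h5 := (hsv v hv).2
  have h6 : (1 + r) * (2 * lowb m) < (1 + r) * D := by
    linarith [hsum', h1, h2, h3, h4, h5, hvc']
  have h7 : (1 + r) * D < (1 + r) * (2 * lowb m) := mul_lt_mul_of_pos_left hD (by linarith)
  linarith

end Pool.Agent.H88.GH
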