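import Pool.Agent.H88.GH.All.UpperAll
import Pool.Agent.H88.GH.All.LowerAll
import Pool.Agent.H88.GH.Main

/-!
Two-sided bounds for the Gromov-Hausdorff distance between the unit ball and the unit sphere in
all dimensions.
-/

namespace Pool.Agent.H88.GH

open Metric Set GromovHausdorff

section

universe u v

variable {X : Type u} [MetricSpace X] [CompactSpace X] [Nonempty X]
variable {Y : Type v} [MetricSpace Y] [CompactSpace Y] [Nonempty Y]

/-- A correspondence with small distortion from a small Gromov-Hausdorff distance. -/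
theorem exists_rel_of_ghDist_lt {r : ℝ} (h : ghDist X Y < r) :
    ∃ R : X → Y → Prop, (∀ x, ∃ y, R x y) ∧ (∀ y, ∃ x, R x y) ∧
      ∀ x y x' y', R x y → R x' y' → |dist x x' - dist y y'| ≤ 2 * r := by
  have h0 : hausdorffDist (range (optimalGHInjl X Y)) (range (optimalGHInjr X Y)) < r := by
    rw [hausdorffDist_optimal]; exact h
  have Il := isometry_optimalGHInjl X Y
  have Ir := isometry_optimalGHInjr X Y
  have fin : hausdorffEDist (range (optimalGHInjl X Y)) (range (optimalGHInjr X Y)) ≠ ⊤ :=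
    hausdorffEDist_ne_top_of_nonempty_of_bounded (range_nonempty _) (range_nonempty _)
      (isCompact_range Il.continuous).isBounded (isCompact_range Ir.continuous).isBounded
  refine ⟨fun x y => dist (optimalGHInjl X Y x) (optimalGHInjr X Y y) < r, ?_, ?_, ?_⟩
  · intro x
    obtain ⟨_, ⟨y, rfl⟩, hy⟩ :=
      exists_dist_lt_of_hausdorffDist_lt (mem_range_self x) h0 fin
    exact ⟨y, hy⟩
  · intro y
    obtain ⟨_, ⟨x, rfl⟩, hx⟩ :=
      exists_dist_lt_of_hausdorffDist_lt' (mem_range_self y) h0 fin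
    exact ⟨x, hx⟩
  · intro x y x' y' a b
    rw [← Il.dist_eq x x', ← Ir.dist_eq y y', abs_le]
    constructor
    · have := dist_triangle4 (optimalGHInjr X Y y) (optimalGHInjl X Y x)
        (optimalGHInjl X Y x') (optimalGHInjr X Y y')
      rw [dist_comm (optimalGHInjr X Y y) (optimalGHInjl X Y x)] at this
      linarith
    · have := dist_triangle4 (optimalGHInjl X Y x) (optimalGHInjr X Y y)
        (optimalGHInjr X Y y') (optimalGHInjl X Y x')
      rw [dist_comm (optimalGHInjr X Y y') (optimalGHInjl X Y x')] at this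
      linarith

end

/-- The lower bound. -/
theorem lower_all {m : ℕ} (hm : 1 ≤ m)
    [Nonempty (closedBall (0 : EuclideanSpace ℝ (Fin (m + 1))) 1)]
    [Nonempty (sphere (0 : EuclideanSpace ℝ (Fin (m + 1))) 1)] :
    lowb m ≤ ghDist (closedBall (0 : EuclideanSpace ℝ (Fin (m + 1))) 1)
      (sphere (0 : EuclideanSpace ℝ (Fin (m + 1))) 1) := by
  by_contra hlt
  push Not at hlt
  obtain ⟨r, hr1, hr2⟩ := exists_between hlt
  obtain ⟨R, hR1, hR2, hR⟩ := exists_rel_of_ghDist_lt hr1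
  have hδ : 0 < (lowb m - r) / 2 := by linarith
  refine lower_core_all hm (D := lowb m + r) (δ := (lowb m - r) / 2) hδ (by linarith)
    (fun x y => ∃ (hx : x ∈ closedBall (0 : EuclideanSpace ℝ (Fin (m + 1))) 1)
      (hy : y ∈ sphere (0 : EuclideanSpace ℝ (Fin (m + 1))) 1), R ⟨x, hx⟩ ⟨y, hy⟩) ?_ ?_ ?_
  · intro x hx
    have hx' := mem_closedBall_zero_iff.2 hx
    obtain ⟨y, hy⟩ := hR1 ⟨x, hx'⟩
    exact ⟨y.1, mem_sphere_zero_iff_norm.1 y.2, hx', y.2, hy⟩
  · intro y hy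
    have hy' := mem_sphere_zero_iff_norm.2 hy
    obtain ⟨x, hx⟩ := hR2 ⟨y, hy'⟩
    exact ⟨x.1, mem_closedBall_zero_iff.1 x.2, x.2, hy', hx⟩
  · rintro x y x' y' ⟨hx, hy, h1⟩ ⟨hx', hy', h2⟩
    have := hR _ _ _ _ h1 h2
    rw [Subtype.dist_eq, Subtype.dist_eq, dist_eq_norm, dist_eq_norm] at this
    linarith

/-- The upper bound. -/
theorem upper_all' {s : ℝ} (hs : 0 < s) (h : 4 * s ^ 3 + 4 * s ^ 2 + s = 1) {m : ℕ} (hm : 1 ≤ m)
    [Nonempty (closedBall (0 : EuclideanSpace ℝ (Fin (m + 1))) 1)]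
    [Nonempty (sphere (0 : EuclideanSpace ℝ (Fin (m + 1))) 1)] :
    ghDist (closedBall (0 : EuclideanSpace ℝ (Fin (m + 1))) 1)
      (sphere (0 : EuclideanSpace ℝ (Fin (m + 1))) 1) ≤ 1 - s := by
  obtain ⟨k, rfl⟩ : ∃ k, m = k + 1 := ⟨m - 1, by omega⟩
  refine upper_all hs h (e := EuclideanSpace.single 0 1) (u₀ := EuclideanSpace.single 1 1)
    (by simp) (by simp) ?_
  rw [EuclideanSpace.inner_single_left]
  simp

lemma lowb_gt (m : ℕ) : 0.533 < lowb m := by
  have hr0 := cr_nonneg m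
  have hr2 := cr_lt m
  have hr1 : cr m ≤ 0.7072 := by
    by_contra hc
    push Not at hc
    nlinarith
  rw [← pow_lt_pow_iff_left₀ (by norm_num) (lowb_pos m).le two_ne_zero, lowb_sq,
    lt_div_iff₀ (by positivity)]
  generalize cr m = r at *
  -- convexity
  have h1 : (1 + r) ^ 4 ≤ 1 + r * (((1.7072:ℝ) ^ 4 - 1) / 0.7072) := by
    have e : 1 + r * (((1.7072:ℝ) ^ 4 - 1) / 0.7072) - (1 + r) ^ 4 =
        r * (0.7072 - r) * (r ^ 2 + (4 + 0.7072) * r + (6 + 4 * 0.7072 + 0.7072 ^ 2)) := by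
      ring
    have : 0 ≤ r * (0.7072 - r) * (r ^ 2 + (4 + 0.7072) * r + (6 + 4 * 0.7072 + 0.7072 ^ 2)) := by
      apply mul_nonneg (mul_nonneg hr0 (by linarith))
      positivity
    linarith
  have h2 : (0.533:ℝ) ^ 2 * (1 + r) ^ 4 ≤
      0.533 ^ 2 * (1 + r * (((1.7072:ℝ) ^ 4 - 1) / 0.7072)) :=
    mul_le_mul_of_nonneg_left h1 (by norm_num)
  refine lt_of_le_of_lt h2 ?_
  norm_num at hr1 ⊢
  nlinarith

end Pool.Agent.H88.GH
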