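import Mathlib
import Pool.Agent.H88.GH.Rel
import Pool.Agent.H88.GH.Glue

/-!
The correspondence between the disc and the circle is symmetric under a reflection; it is lifted
to a correspondence between the unit ball and the unit sphere of every inner product space of
dimension at least two, with the same distortion.
-/

namespace Pool.Agent.H88.GH

open Real ComplexConjugate Metric

variable {E : Type*} [NormedAddCommGroup E] [InnerProductSpace ℝ E]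

/-- The point of the plane spanned by `e` and `u` with coordinates the real and the imaginary
part of `p`. -/
noncomputable def pt (e u : E) (p : ℂ) : E := p.re • e + p.im • u

lemma norm_pt_sq {e u : E} (he : ‖e‖ = 1) (hu : ‖u‖ = 1) (heu : inner ℝ e u = 0) (p : ℂ) :
    ‖pt e u p‖ ^ 2 = p.re ^ 2 + p.im ^ 2 := by
  unfold pt
  rw [← real_inner_self_eq_norm_sq, inner_add_left, inner_add_right, inner_add_right]
  simp only [inner_smul_left, inner_smul_right, real_inner_self_eq_norm_sq, he, hu, heu,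
    real_inner_comm e u]
  simp
  ring

lemma norm_pt {e u : E} (he : ‖e‖ = 1) (hu : ‖u‖ = 1) (heu : inner ℝ e u = 0) (p : ℂ) :
    ‖pt e u p‖ = ‖p‖ := by
  rw [← pow_left_inj₀ (norm_nonneg _) (norm_nonneg _) two_ne_zero, norm_pt_sq he hu heu,
    ← Complex.normSq_eq_norm_sq, Complex.normSq_apply]
  ring

lemma norm_pt_sub_sq {e u u' : E} (he : ‖e‖ = 1) (hu : ‖u‖ = 1) (heu : inner ℝ e u = 0)
    (hu' : ‖u'‖ = 1) (heu' : inner ℝ e u' = 0) (p q : ℂ) :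
    ‖pt e u p - pt e u' q‖ ^ 2 = (1 + inner ℝ u u') / 2 * ‖p - q‖ ^ 2 +
      (1 - inner ℝ u u') / 2 * ‖p - conj q‖ ^ 2 := by
  rw [norm_sub_sq', norm_sub_sq', Complex.conj_re, Complex.conj_im]
  unfold pt
  rw [← real_inner_self_eq_norm_sq]
  simp only [inner_add_left, inner_add_right, inner_sub_left, inner_sub_right, inner_smul_left,
    inner_smul_right, real_inner_self_eq_norm_sq, he, hu, hu', heu, heu',
    real_inner_comm e u, real_inner_comm e u', real_inner_comm u u', conj_trivial]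
  rw [real_inner_comm u' u]
  ring

/-- Minkowski's inequality in the form needed. -/
lemma mix {l μ a b c d D D' ε : ℝ} (hl : 0 ≤ l) (hμ : 0 ≤ μ) (hlμ : l + μ = 1) (ha : 0 ≤ a)
    (hb : 0 ≤ b) (hc : 0 ≤ c) (hd : 0 ≤ d) (hD : 0 ≤ D) (hD' : 0 ≤ D')
    (h1 : D ^ 2 = l * a ^ 2 + μ * b ^ 2) (h2 : D' ^ 2 = l * c ^ 2 + μ * d ^ 2) (hε : 0 ≤ ε)
    (hac : a ≤ c + ε) (hbd : b ≤ d + ε) : D ≤ D' + ε := by
  have h3 : l * c + μ * d ≤ D' := by
    rw [← pow_le_pow_iff_left₀ (by positivity) hD' two_ne_zero, h2]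
    have : l * c ^ 2 + μ * d ^ 2 - (l * c + μ * d) ^ 2 = l * μ * (c - d) ^ 2 := by
      have : μ = 1 - l := by linarith
      rw [this]; ring
    nlinarith [mul_nonneg (mul_nonneg hl hμ) (sq_nonneg (c - d))]
  rw [← pow_le_pow_iff_left₀ hD (by positivity) two_ne_zero, h1]
  have h4 : a ^ 2 ≤ (c + ε) ^ 2 := pow_le_pow_left₀ ha hac 2
  have h5 : b ^ 2 ≤ (d + ε) ^ 2 := pow_le_pow_left₀ hb hbd 2
  have h6 : l * a ^ 2 + μ * b ^ 2 ≤ l * (c + ε) ^ 2 + μ * (d + ε) ^ 2 := by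
    have := mul_le_mul_of_nonneg_left h4 hl
    have := mul_le_mul_of_nonneg_left h5 hμ
    linarith
  have h7 : l * (c + ε) ^ 2 + μ * (d + ε) ^ 2 = D' ^ 2 + 2 * ε * (l * c + μ * d) + ε ^ 2 := by
    rw [h2]
    have : μ = 1 - l := by linarith
    rw [this]; ring
  have h8 := mul_le_mul_of_nonneg_left h3 hε
  nlinarith

lemma Rl_conj {s : ℝ} {p z : ℂ} (h : Rl s p z) : Rl s (conj p) (conj z) := by
  obtain ⟨it, hit, h | h⟩ := h
  · exact ⟨it, hit, Or.inr (by rwa [Complex.conj_conj, Complex.conj_conj])⟩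
  · exact ⟨it, hit, Or.inl h⟩

/-- The lifted correspondence. -/
def RM (s : ℝ) (e x y : E) : Prop :=
  ∃ u : E, ‖u‖ = 1 ∧ inner ℝ e u = 0 ∧ ∃ p z : ℂ, Rl s p z ∧ x = pt e u p ∧ y = pt e u z

theorem RM_dis {s : ℝ} (hs : 0 < s) (h : 4 * s ^ 3 + 4 * s ^ 2 + s = 1) {e : E} (he : ‖e‖ = 1)
    {x y x' y' : E} (h1 : RM s e x y) (h2 : RM s e x' y') :
    |‖x - x'‖ - ‖y - y'‖| ≤ 2 * (1 - s) := by
  obtain ⟨u, hu, heu, p, z, hpz, rfl, rfl⟩ := h1
  obtain ⟨v, hv, hev, q, w, hqw, rfl, rfl⟩ := h2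
  have hc := abs_le.1 (abs_real_inner_le_norm u v)
  rw [hu, hv] at hc
  have hsu := s_upper h
  have a1 := abs_le.1 (dis_le hs h hpz hqw)
  have a2 := abs_le.1 (dis_le hs h hpz (Rl_conj hqw))
  have e1 := norm_pt_sub_sq he hu heu hv hev p q
  have e2 := norm_pt_sub_sq he hu heu hv hev z w
  have l0 : 0 ≤ (1 + inner ℝ u v) / 2 := by linarith
  have m0 : 0 ≤ (1 - inner ℝ u v) / 2 := by linarith
  have lm : (1 + inner ℝ u v) / 2 + (1 - inner ℝ u v) / 2 = 1 := by ring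
  rw [abs_le]
  constructor
  · have := mix (ε := 2 * (1 - s)) l0 m0 lm (norm_nonneg (z - w)) (norm_nonneg (z - conj w))
      (norm_nonneg (p - q)) (norm_nonneg (p - conj q)) (norm_nonneg _) (norm_nonneg _) e2 e1
      (by linarith) (by linarith) (by linarith)
    linarith
  · have := mix (ε := 2 * (1 - s)) l0 m0 lm (norm_nonneg (p - q)) (norm_nonneg (p - conj q))
      (norm_nonneg (z - w)) (norm_nonneg (z - conj w)) (norm_nonneg _) (norm_nonneg _) e1 e2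
      (by linarith) (by linarith) (by linarith)
    linarith

/-- Every vector is of the form `pt e u p`. -/
lemma exists_pt {e u₀ : E} (he : ‖e‖ = 1) (hu₀ : ‖u₀‖ = 1) (heu₀ : inner ℝ e u₀ = 0) (x : E) :
    ∃ u : E, ‖u‖ = 1 ∧ inner ℝ e u = 0 ∧ ∃ p : ℂ, x = pt e u p ∧ ‖p‖ = ‖x‖ := by
  set v := x - (inner ℝ e x) • e with hv
  have hev : inner ℝ e v = 0 := by
    rw [hv, inner_sub_right, inner_smul_right, real_inner_self_eq_norm_sq, he]
    ring
  have key : ∃ u : E, ‖u‖ = 1 ∧ inner ℝ e u = 0 ∧ ‖v‖ • u = v := by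
    rcases eq_or_ne v 0 with h0 | h0
    · exact ⟨u₀, hu₀, heu₀, by rw [h0]; simp⟩
    · have hn : ‖v‖ ≠ 0 := norm_ne_zero_iff.2 h0
      refine ⟨‖v‖⁻¹ • v, ?_, ?_, ?_⟩
      · rw [norm_smul, norm_inv, norm_norm, inv_mul_cancel₀ hn]
      · rw [inner_smul_right, hev, mul_zero]
      · rw [smul_smul, mul_inv_cancel₀ hn, one_smul]
  obtain ⟨u, hu, heu, hvu⟩ := key
  have hx : x = pt e u ⟨inner ℝ e x, ‖v‖⟩ := by
    unfold pt
    simp only
    rw [hvu, hv]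
    abel
  refine ⟨u, hu, heu, ⟨inner ℝ e x, ‖v‖⟩, hx, ?_⟩
  rw [← norm_pt he hu heu ⟨inner ℝ e x, ‖v‖⟩, ← hx]

theorem RM_left {s : ℝ} {e u₀ : E} (he : ‖e‖ = 1) (hu₀ : ‖u₀‖ = 1) (heu₀ : inner ℝ e u₀ = 0)
    {x : E} (hx : ‖x‖ ≤ 1) : ∃ y, ‖y‖ = 1 ∧ RM s e x y := by
  obtain ⟨u, hu, heu, p, rfl, hp⟩ := exists_pt he hu₀ heu₀ x
  obtain ⟨z, hz, hr⟩ := cover_disc s (p := p) (by rw [hp]; exact hx)
  exact ⟨pt e u z, by rw [norm_pt he hu heu, hz], u, hu, heu, p, z, hr, rfl, rfl⟩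

theorem RM_right {s : ℝ} (hs : 0 < s) (h : 4 * s ^ 3 + 4 * s ^ 2 + s = 1) {e u₀ : E}
    (he : ‖e‖ = 1) (hu₀ : ‖u₀‖ = 1) (heu₀ : inner ℝ e u₀ = 0) {y : E} (hy : ‖y‖ = 1) :
    ∃ x, ‖x‖ ≤ 1 ∧ RM s e x y := by
  obtain ⟨u, hu, heu, z, rfl, hz⟩ := exists_pt he hu₀ heu₀ y
  obtain ⟨p, hp, hr⟩ := cover_circle hs h (z := z) (by rw [hz]; exact hy)
  exact ⟨pt e u p, by rw [norm_pt he hu heu]; exact hp, u, hu, heu, p, z, hr, rfl, rfl⟩

open GromovHausdorff in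
/-- The upper bound in all dimensions. -/
theorem upper_all {s : ℝ} (hs : 0 < s) (h : 4 * s ^ 3 + 4 * s ^ 2 + s = 1) {e u₀ : E}
    (he : ‖e‖ = 1) (hu₀ : ‖u₀‖ = 1) (heu₀ : inner ℝ e u₀ = 0) [CompactSpace (closedBall (0 : E) 1)]
    [CompactSpace (sphere (0 : E) 1)] [Nonempty (closedBall (0 : E) 1)]
    [Nonempty (sphere (0 : E) 1)] :
    ghDist (closedBall (0 : E) 1) (sphere (0 : E) 1) ≤ 1 - s := by
  have hu := s_upper h
  refine ghDist_le_of_rel (fun x y => RM s e x.1 y.1) ?_ ?_ (by linarith) ?_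
  · intro x
    obtain ⟨y, hy, hr⟩ := RM_left (s := s) he hu₀ heu₀ (mem_closedBall_zero_iff.1 x.2)
    exact ⟨⟨y, mem_sphere_zero_iff_norm.2 hy⟩, hr⟩
  · intro y
    obtain ⟨x, hx, hr⟩ := RM_right hs h he hu₀ heu₀ (mem_sphere_zero_iff_norm.1 y.2)
    exact ⟨⟨x, mem_closedBall_zero_iff.2 hx⟩, hr⟩
  · intro x y x' y' h1 h2
    rw [Subtype.dist_eq, Subtype.dist_eq, dist_eq_norm, dist_eq_norm]
    exact RM_dis hs h he h1 h2

end Pool.Agent.H88.GH
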